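import Pool.Agent.GenShape.Volume

/-!
Generalized shape parameters of a triangulated closed oriented 3-manifold can have volume larger
than `v₃` times the Gromov norm.
-/

namespace Pool.Agent.Results.MP_e8da18_gt.ThreeSphere

open Pool.Agent.GenShape

/-- There is a triangulation of the 3-sphere with a generalized shape parameter whose volume is
larger than `v₃` times the Gromov norm. -/
theorem result : ∃ (ι : Type) (_ : Fintype ι) (T : Triangulation ι),
    Nonempty (T.Space ≃ₜ Metric.sphere (0 : EuclideanSpace ℝ (Fin 4)) 1) ∧
      ∃ z ∈ T.shapes, regularVolume * T.gromovNorm < volume z :=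
  ⟨_, _, cross, main⟩

end Pool.Agent.Results.MP_e8da18_gt.ThreeSphere
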